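import Mathlib

set_option autoImplicit false

namespace Pool.Agent.V7H15.Perm

open MvPolynomial Finset

universe u

/-- The label of a gate: a variable, a constant, or the sum or the product of a finite multiset of
gates. -/
inductive Label (n : ℕ) (K : Type u) (s : ℕ) : Type u
  | var (i j : Fin n) : Label n K s
  | const (c : K) : Label n K s
  | add (l : Multiset (Fin s)) : Label n K s
  | mul (l : Multiset (Fin s)) : Label n K s

/-- The gates that feed a gate with this label. -/
def Label.inputs {n : ℕ} {K : Type u} {s : ℕ} : Label n K s → Multiset (Fin s)
  | .var _ _ => 0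
  | .const _ => 0
  | .add l => l
  | .mul l => l

/-- The image of a label under a permutation `e` of the columns and a permutation `π` of the
gates. -/
def Label.act {n : ℕ} {K : Type u} {s : ℕ} (e : Equiv.Perm (Fin n)) (π : Equiv.Perm (Fin s)) :
    Label n K s → Label n K s
  | .var i j => .var i (e j)
  | .const c => .const c
  | .add l => .add (l.map π)
  | .mul l => .mul (l.map π)

/-- An arithmetic circuit with `s` gates over `K` in the `n ^ 2` variables `x (i, j)`. The numbers of
the gates that feed a gate are smaller than its own number, so the circuit is acyclic. The fan-in and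
the fan-out are unbounded. -/
structure Circuit (n : ℕ) (K : Type u) (s : ℕ) where
  label : Fin s → Label n K s
  acyclic : ∀ g, ∀ h ∈ (label g).inputs, h < g

/-- The polynomial computed at a gate. -/
noncomputable def Circuit.poly {n : ℕ} {K : Type u} {s : ℕ} [CommRing K] (Φ : Circuit n K s)
    (g : Fin s) : MvPolynomial (Fin n × Fin n) K :=
  match h : Φ.label g with
  | .var i j => X (i, j)
  | .const c => C c
  | .add l => (l.attach.map fun x => Φ.poly x.1).sum
  | .mul l => (l.attach.map fun x => Φ.poly x.1).prod
termination_by g
decreasing_by
  · exact Φ.acyclic g x.1 (by rw [h]; exact x.2)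
  · exact Φ.acyclic g x.1 (by rw [h]; exact x.2)

/-- The permutation `e` of the columns extends to an automorphism of the circuit. -/
def Circuit.Extends {n : ℕ} {K : Type u} {s : ℕ} (Φ : Circuit n K s) (e : Equiv.Perm (Fin n)) :
    Prop :=
  ∃ π : Equiv.Perm (Fin s), ∀ g, Φ.label (π g) = (Φ.label g).act e π

/-- Change of the signs of the variables of the row `i`. -/
noncomputable def rowNeg {n : ℕ} {K : Type u} [CommRing K] (i : Fin n) :
    MvPolynomial (Fin n × Fin n) K →ₐ[K] MvPolynomial (Fin n × Fin n) K :=
  aeval fun v => if v.1 = i then - X v else X v

end Pool.Agent.V7H15.Perm
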