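import Mathlib
import Pool.Agent.V7H15.Perm.Defs

set_option autoImplicit false

namespace Pool.Agent.V7H15.Perm

open MvPolynomial Finset

universe u

section
variable {n : ℕ} {K : Type u} {s : ℕ} [CommRing K] (Φ : Circuit n K s)

theorem poly_var {g : Fin s} {i j : Fin n} (h : Φ.label g = .var i j) : Φ.poly g = X (i, j) := by
  rw [Circuit.poly]
  split <;> simp_all

theorem poly_const {g : Fin s} {c : K} (h : Φ.label g = .const c) : Φ.poly g = C c := by
  rw [Circuit.poly]
  split <;> simp_all

theorem poly_add {g : Fin s} {l : Multiset (Fin s)} (h : Φ.label g = .add l) :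
    Φ.poly g = (l.map Φ.poly).sum := by
  rw [Circuit.poly]
  split
  · simp_all
  · simp_all
  · rename_i l' h'
    rw [h] at h'
    cases h'
    rw [Multiset.attach_map_val' l Φ.poly]
  · simp_all

theorem poly_mul {g : Fin s} {l : Multiset (Fin s)} (h : Φ.label g = .mul l) :
    Φ.poly g = (l.map Φ.poly).prod := by
  rw [Circuit.poly]
  split
  · simp_all
  · simp_all
  · simp_all
  · rename_i l' h'
    rw [h] at h'
    cases h'
    rw [Multiset.attach_map_val' l Φ.poly]

end


section Binomials

theorem choose_rec (a b : ℕ) : (a + b).choose b * (a.factorial * b.factorial) = (a + b).factorial := by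
  have := Nat.add_choose_mul_factorial_mul_factorial a b
  rw [← this]; ring

theorem choose_step (t : ℕ) (ht : 1 ≤ t) : 27 * (6 * t).choose (2 * t) ≤ (6 * t + 6).choose (2 * t + 2) := by
  have key : (6 * t + 6).choose (2 * t + 2) * ((2 * t + 1) * (2 * t + 2) * ((4 * t + 1) * (4 * t + 2) * (4 * t + 3) * (4 * t + 4)))
      = (6 * t).choose (2 * t) * ((6 * t + 1) * (6 * t + 2) * (6 * t + 3) * (6 * t + 4) * (6 * t + 5) * (6 * t + 6)) := by
    have h1 := choose_rec (4 * t + 4) (2 * t + 2)
    have h2 := choose_rec (4 * t) (2 * t)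
    have e1 : 4 * t + 4 + (2 * t + 2) = 6 * t + 6 := by ring
    have e2 : 4 * t + 2 * t = 6 * t := by ring
    rw [e1] at h1
    rw [e2] at h2
    have f1 : (2 * t + 2).factorial = (2 * t + 2) * ((2 * t + 1) * (2 * t).factorial) := by
      rw [Nat.factorial_succ, Nat.factorial_succ]
    have f2 : (4 * t + 4).factorial = (4 * t + 4) * ((4 * t + 3) * ((4 * t + 2) * ((4 * t + 1) * (4 * t).factorial))) := by
      rw [Nat.factorial_succ, Nat.factorial_succ, Nat.factorial_succ, Nat.factorial_succ]
    have f3 : (6 * t + 6).factorial = (6 * t + 6) * ((6 * t + 5) * ((6 * t + 4) * ((6 * t + 3) * ((6 * t + 2) * ((6 * t + 1) * (6 * t).factorial))))) := by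
      rw [Nat.factorial_succ, Nat.factorial_succ, Nat.factorial_succ, Nat.factorial_succ, Nat.factorial_succ, Nat.factorial_succ]
    rw [f1, f2, f3, ← h2] at h1
    have p1 := Nat.factorial_pos (2 * t)
    have p2 := Nat.factorial_pos (4 * t)
    have p3 : 0 < (4 * t).factorial * (2 * t).factorial := Nat.mul_pos p2 p1
    apply Nat.eq_of_mul_eq_mul_right p3
    linear_combination h1
  have hpos : 0 < (2 * t + 1) * (2 * t + 2) * ((4 * t + 1) * (4 * t + 2) * (4 * t + 3) * (4 * t + 4)) := by positivity
  apply Nat.le_of_mul_le_mul_right _ hpos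
  rw [key]
  have : 27 * ((2 * t + 1) * (2 * t + 2) * ((4 * t + 1) * (4 * t + 2) * (4 * t + 3) * (4 * t + 4))) ≤ (6 * t + 1) * (6 * t + 2) * (6 * t + 3) * (6 * t + 4) * (6 * t + 5) * (6 * t + 6) := by
    obtain ⟨u, rfl⟩ : ∃ u, t = u + 1 := ⟨t - 1, by omega⟩
    ring_nf
    nlinarith [sq_nonneg u]
  calc 27 * (6 * t).choose (2 * t) * ((2 * t + 1) * (2 * t + 2) * ((4 * t + 1) * (4 * t + 2) * (4 * t + 3) * (4 * t + 4)))
      = (6 * t).choose (2 * t) * (27 * ((2 * t + 1) * (2 * t + 2) * ((4 * t + 1) * (4 * t + 2) * (4 * t + 3) * (4 * t + 4)))) := by ring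
    _ ≤ _ := Nat.mul_le_mul_left _ this


theorem choose_one (t : ℕ) (ht : 1 ≤ t) : 3 * (6 * t).choose (2 * t) ≤ (6 * t + 2).choose (2 * t + 1) := by
  have key : (6 * t + 2).choose (2 * t + 1) * ((2 * t + 1) * (4 * t + 1))
      = (6 * t).choose (2 * t) * ((6 * t + 1) * (6 * t + 2)) := by
    have h1 := choose_rec (4 * t + 1) (2 * t + 1)
    have h2 := choose_rec (4 * t) (2 * t)
    have e1 : 4 * t + 1 + (2 * t + 1) = 6 * t + 2 := by ring
    have e2 : 4 * t + 2 * t = 6 * t := by ring
    rw [e1] at h1
    rw [e2] at h2
    have f1 : (2 * t + 1).factorial = (2 * t + 1) * (2 * t).factorial := by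
      rw [Nat.factorial_succ]
    have f2 : (4 * t + 1).factorial = (4 * t + 1) * (4 * t).factorial := by
      rw [Nat.factorial_succ]
    have f3 : (6 * t + 2).factorial = (6 * t + 2) * ((6 * t + 1) * (6 * t).factorial) := by
      rw [Nat.factorial_succ, Nat.factorial_succ]
    rw [f1, f2, f3, ← h2] at h1
    have p3 : 0 < (4 * t).factorial * (2 * t).factorial := by positivity
    apply Nat.eq_of_mul_eq_mul_right p3
    linear_combination h1
  have hpos : 0 < (2 * t + 1) * (4 * t + 1) := by positivity
  apply Nat.le_of_mul_le_mul_right _ hpos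
  rw [key]
  have : 3 * ((2 * t + 1) * (4 * t + 1)) ≤ (6 * t + 1) * (6 * t + 2) := by
    nlinarith
  calc 3 * (6 * t).choose (2 * t) * ((2 * t + 1) * (4 * t + 1))
      = (6 * t).choose (2 * t) * (3 * ((2 * t + 1) * (4 * t + 1))) := by ring
    _ ≤ _ := Nat.mul_le_mul_left _ this

theorem choose_two (t : ℕ) (ht : 1 ≤ t) : 9 * (6 * t).choose (2 * t) ≤ (6 * t + 4).choose (2 * t + 2) := by
  have key : (6 * t + 4).choose (2 * t + 2) * ((2 * t + 1) * (2 * t + 2) * ((4 * t + 1) * (4 * t + 2)))
      = (6 * t).choose (2 * t) * ((6 * t + 1) * (6 * t + 2) * (6 * t + 3) * (6 * t + 4)) := by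
    have h1 := choose_rec (4 * t + 2) (2 * t + 2)
    have h2 := choose_rec (4 * t) (2 * t)
    have e1 : 4 * t + 2 + (2 * t + 2) = 6 * t + 4 := by ring
    have e2 : 4 * t + 2 * t = 6 * t := by ring
    rw [e1] at h1
    rw [e2] at h2
    have f1 : (2 * t + 2).factorial = (2 * t + 2) * ((2 * t + 1) * (2 * t).factorial) := by
      rw [Nat.factorial_succ, Nat.factorial_succ]
    have f2 : (4 * t + 2).factorial = (4 * t + 2) * ((4 * t + 1) * (4 * t).factorial) := by
      rw [Nat.factorial_succ, Nat.factorial_succ]
    have f3 : (6 * t + 4).factorial = (6 * t + 4) * ((6 * t + 3) * ((6 * t + 2) * ((6 * t + 1) * (6 * t).factorial))) := by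
      rw [Nat.factorial_succ, Nat.factorial_succ, Nat.factorial_succ, Nat.factorial_succ]
    rw [f1, f2, f3, ← h2] at h1
    have p3 : 0 < (4 * t).factorial * (2 * t).factorial := by positivity
    apply Nat.eq_of_mul_eq_mul_right p3
    linear_combination h1
  have hpos : 0 < (2 * t + 1) * (2 * t + 2) * ((4 * t + 1) * (4 * t + 2)) := by positivity
  apply Nat.le_of_mul_le_mul_right _ hpos
  rw [key]
  have : 9 * ((2 * t + 1) * (2 * t + 2) * ((4 * t + 1) * (4 * t + 2))) ≤ (6 * t + 1) * (6 * t + 2) * (6 * t + 3) * (6 * t + 4) := by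
    obtain ⟨u, rfl⟩ : ∃ u, t = u + 1 := ⟨t - 1, by omega⟩
    ring_nf
    nlinarith [sq_nonneg u]
  calc 9 * (6 * t).choose (2 * t) * ((2 * t + 1) * (2 * t + 2) * ((4 * t + 1) * (4 * t + 2)))
      = (6 * t).choose (2 * t) * (9 * ((2 * t + 1) * (2 * t + 2) * ((4 * t + 1) * (4 * t + 2)))) := by ring
    _ ≤ _ := Nat.mul_le_mul_left _ this

theorem choose_zero (t : ℕ) : 27 ^ t ≤ 2 * (6 * t).choose (2 * t) := by
  rcases Nat.lt_or_ge t 1 with h | h
  · interval_cases t; norm_num
  · induction t, h using Nat.le_induction with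
    | base => decide +kernel
    | succ t ht ih =>
      have h1 := choose_step t ht
      have e1 : 6 * (t + 1) = 6 * t + 6 := by ring
      have e2 : 2 * (t + 1) = 2 * t + 2 := by ring
      rw [e1, e2, pow_succ]
      omega

theorem choose_mono_half (N r k : ℕ) (h : r ≤ k) (hk : 2 * k ≤ N) : N.choose r ≤ N.choose k := by
  induction k, h using Nat.le_induction with
  | base => exact le_rfl
  | succ k hk' ih =>
    refine (ih (by omega)).trans (Nat.choose_le_succ_of_lt_half_left ?_)
    omega

theorem choose_mid (N r k : ℕ) (h : r ≤ k) (h2 : r + k ≤ N) : N.choose r ≤ N.choose k := by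
  rcases Nat.le_or_ge (2 * k) N with h3 | h3
  · exact choose_mono_half N r k h h3
  · rw [← Nat.choose_symm (by omega : k ≤ N)]
    exact choose_mono_half N r (N - k) (by omega) (by omega)

theorem choose_bound (m k : ℕ) (h1 : 2 * m < 3 * k) (h2 : 3 * k ≤ 4 * m) :
    3 ^ m ≤ 2 * (2 * m).choose k := by
  obtain ⟨t, ht | ht | ht⟩ : ∃ t, m = 3 * t ∨ m = 3 * t + 1 ∨ m = 3 * t + 2 := ⟨m / 3, by omega⟩
  · subst ht
    have h3 := choose_zero t
    have h4 := choose_mid (2 * (3 * t)) (2 * t) k (by omega) (by omega)
    have e1 : 2 * (3 * t) = 6 * t := by ring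
    rw [e1] at h4 ⊢
    rw [pow_mul]
    norm_num
    omega
  · subst ht
    have h3 := choose_zero t
    have h4 := choose_mid (2 * (3 * t + 1)) (2 * t + 1) k (by omega) (by omega)
    have e1 : 2 * (3 * t + 1) = 6 * t + 2 := by ring
    rw [e1] at h4 ⊢
    rw [pow_succ, pow_mul]
    norm_num
    rcases Nat.lt_or_ge t 1 with h | h
    · interval_cases t
      norm_num at h4 ⊢
      omega
    · have h5 := choose_one t h
      omega
  · subst ht
    have h3 := choose_zero t
    have h4 := choose_mid (2 * (3 * t + 2)) (2 * t + 2) k (by omega) (by omega)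
    have e1 : 2 * (3 * t + 2) = 6 * t + 4 := by ring
    rw [e1] at h4 ⊢
    rw [pow_add, pow_mul]
    norm_num
    rcases Nat.lt_or_ge t 1 with h | h
    · interval_cases t
      have : Nat.choose 4 2 = 6 := by decide
      norm_num [this] at h4 ⊢
      omega
    · have h5 := choose_two t h
      omega

end Binomials

/-- the group of sign vectors -/
abbrev Sg (m : ℕ) := Fin m → ℤˣ
abbrev Slot (m : ℕ) := Fin m × Bool

section
variable {m : ℕ} {K : Type u} [Field K] [CharZero K]

/-- the character of a set of slots -/
def chi (K : Type u) [Field K] (T : Finset (Slot m)) : Sg m →* K where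
  toFun q := ∏ x ∈ T, ((q x.1 : ℤ) : K)
  map_one' := by simp
  map_mul' p q := by simp [Finset.prod_mul_distrib]

theorem chi_apply (T : Finset (Slot m)) (q : Sg m) : chi K T q = ∏ x ∈ T, ((q x.1 : ℤ) : K) := rfl

theorem chi_single (T : Finset (Slot m)) (p : Fin m) :
    chi K T (Pi.mulSingle p (-1)) = (-1) ^ (T.filter (fun x => x.1 = p)).card := by
  rw [chi_apply, Finset.card_filter, ← Finset.prod_pow_eq_pow_sum]
  refine Finset.prod_congr rfl fun x _ => ?_
  by_cases h : x.1 = p
  · rw [if_pos h, h, Pi.mulSingle_eq_same]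
    simp
  · rw [if_neg h, Pi.mulSingle_eq_of_ne h]
    simp

theorem card_filter_pair (T : Finset (Slot m)) (p : Fin m) :
    (T.filter (fun x => x.1 = p)).card =
      (if (p, false) ∈ T then 1 else 0) + (if (p, true) ∈ T then 1 else 0) := by
  have h : T.filter (fun x => x.1 = p) = ({(p, false), (p, true)} : Finset (Slot m)).filter (· ∈ T) := by
    ext ⟨a, b⟩
    simp only [mem_filter, mem_insert, mem_singleton, Prod.mk.injEq]
    constructor
    · rintro ⟨h1, h2⟩
      subst h2
      cases b <;> simp [h1]
    · rintro ⟨h1 | h1, h2⟩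
      · exact ⟨h2, h1.1⟩
      · exact ⟨h2, h1.1⟩
  rw [h, Finset.card_filter, Finset.sum_pair (by simp)]

open Classical in
theorem fibre_le (χ : Sg m →* K) : (univ.filter (fun T : Finset (Slot m) => chi K T = χ)).card ≤ 2 ^ m := by
  classical
  have : (univ.filter (fun T : Finset (Slot m) => chi K T = χ)).card ≤ (univ : Finset (Finset (Fin m))).card := by
    apply Finset.card_le_card_of_injOn (fun T => univ.filter (fun p : Fin m => (p, false) ∈ T))
    · intro T _
      exact mem_coe.2 (mem_univ _)
    · intro T hT T' hT' h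
      have e1 : chi K T = chi K T' := by
        rw [(mem_filter.1 (mem_coe.1 hT)).2, (mem_filter.1 (mem_coe.1 hT')).2]
      have e2 : ∀ p : Fin m, (p, false) ∈ T ↔ (p, false) ∈ T' := by
        intro p
        have := congrArg (fun s => p ∈ s) h
        simpa using this
      have e3 : ∀ p : Fin m, (p, true) ∈ T ↔ (p, true) ∈ T' := by
        intro p
        have h1 := congrArg (fun f => f (Pi.mulSingle p (-1))) e1
        simp only [chi_single, card_filter_pair] at h1
        have h2 := e2 p
        by_cases ha : (p, false) ∈ T <;> by_cases hb : (p, true) ∈ T <;> by_cases hc : (p, true) ∈ T' <;>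
          simp only [ha, hb, hc, if_true, if_false, true_iff, false_iff, iff_true, iff_false] at h1 h2 ⊢ <;>
          simp only [h2, if_true, if_false] at h1 <;> norm_num at h1
      ext ⟨p, b⟩
      cases b
      · exact e2 p
      · exact e3 p
  rwa [card_univ, Fintype.card_finset, Fintype.card_fin] at this

theorem chars_le {s : ℕ} (φ : Sg m → Fin s) (X : Finset (Sg m →* K))
    (hX : ∀ χ ∈ X, ∃ h : Fin s → K, ∀ q, χ q = h (φ q)) : X.card ≤ s := by
  classical
  choose! h hh using hX
  have li : LinearIndependent K (fun χ : X => ((χ : Sg m →* K) : Sg m → K)) :=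
    (linearIndependent_monoidHom (Sg m) K).comp (fun χ : X => (χ : Sg m →* K)) Subtype.val_injective
  let L : (Fin s → K) →ₗ[K] (Sg m → K) := LinearMap.funLeft K K φ
  have li2 : LinearIndependent K (fun χ : X => h χ) := by
    apply LinearIndependent.of_comp L
    convert li using 1
    funext χ
    funext q
    exact (hh χ χ.2 q).symm
  have := li2.fintype_card_le_finrank
  simpa using this

theorem perm_count (S T : Finset (Slot m)) :
    (univ.filter (fun ρ : Equiv.Perm (Slot m) => S.map ρ.toEmbedding = T)).card * (2 * m).choose S.card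
      ≤ (2 * m).factorial := by
  classical
  rcases Classical.em (S.card = T.card) with hc | hc
  swap
  · have : univ.filter (fun ρ : Equiv.Perm (Slot m) => S.map ρ.toEmbedding = T) = ∅ := by
      apply Finset.filter_eq_empty_iff.2
      intro ρ _ h
      apply hc
      rw [← h, card_map]
    rw [this]
    simp
  have hall : ∀ T' ∈ powersetCard S.card (univ : Finset (Slot m)),
      (univ.filter (fun ρ : Equiv.Perm (Slot m) => S.map ρ.toEmbedding = T)).card =
      (univ.filter (fun ρ : Equiv.Perm (Slot m) => S.map ρ.toEmbedding = T')).card := by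
    intro T' hT'
    have hT'2 : T'.card = S.card := (mem_powersetCard.1 hT').2
    obtain ⟨τ, hτ⟩ : ∃ τ : Equiv.Perm (Slot m), T.map τ.toEmbedding = T' := by
      have e : {x // x ∈ T} ≃ {x // x ∈ T'} := by
        apply Fintype.equivOfCardEq
        rw [Fintype.card_coe, Fintype.card_coe, hT'2, hc]
      refine ⟨e.extendSubtype, ?_⟩
      apply Finset.eq_of_subset_of_card_le
      · intro x hx
        rw [mem_map] at hx
        obtain ⟨y, hy, rfl⟩ := hx
        exact e.extendSubtype_mem y hy
      · rw [card_map, hT'2, hc]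
    refine Finset.card_bij (fun ρ _ => τ * ρ) ?_ ?_ ?_
    · intro ρ hρ
      rw [mem_filter] at hρ ⊢
      refine ⟨mem_univ _, ?_⟩
      rw [← hτ, ← hρ.2, Finset.map_map]
      rfl
    · intro ρ _ ρ' _ h
      exact mul_left_cancel h
    · intro ρ hρ
      rw [mem_filter] at hρ
      refine ⟨τ⁻¹ * ρ, ?_, by group⟩
      rw [mem_filter]
      refine ⟨mem_univ _, ?_⟩
      have h1 : S.map (τ⁻¹ * ρ).toEmbedding = (S.map ρ.toEmbedding).map (τ⁻¹).toEmbedding := by
        rw [Finset.map_map]; rfl
      rw [h1, hρ.2, ← hτ, Finset.map_map]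
      ext x
      simp
  have hsum : ∑ T' ∈ powersetCard S.card (univ : Finset (Slot m)),
      (univ.filter (fun ρ : Equiv.Perm (Slot m) => S.map ρ.toEmbedding = T')).card = (2 * m).factorial := by
    rw [← Finset.card_eq_sum_card_fiberwise (f := fun ρ : Equiv.Perm (Slot m) => S.map ρ.toEmbedding)]
    · rw [card_univ, Fintype.card_perm]
      congr 1
      simp [mul_comm]
    · intro ρ _
      rw [mem_coe, mem_powersetCard]
      exact ⟨subset_univ _, card_map _⟩
  rw [← hsum, Finset.sum_congr rfl fun T' hT' => (hall T' hT').symm, sum_const, card_powersetCard, card_univ]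
  have : Fintype.card (Slot m) = 2 * m := by simp [mul_comm]
  rw [this, smul_eq_mul, mul_comm]

end

section
variable {n m : ℕ} {K : Type u} [Field K] [CharZero K]

/-- the columns of the slots -/
def col (a b : Fin m → Fin n) (x : Slot m) : Fin n := if x.2 then b x.1 else a x.1

/-- two columns are equal or form one of the pairs -/
def Same (a b : Fin m → Fin n) (c j : Fin n) : Prop :=
  c = j ∨ ∃ p, (c = a p ∨ c = b p) ∧ (j = a p ∨ j = b p)

open Classical in
/-- sign of a column -/
noncomputable def vv (K : Type u) [Field K] (b : Fin m → Fin n) (j : Fin n) : K := if ∃ p, j = b p then -1 else 1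

open Classical in
/-- the basic matrix -/
noncomputable def BB (K : Type u) [Field K] (a b : Fin m → Fin n) (c j : Fin n) : K :=
  if Same a b c j then vv K b j else 0

/-- evaluation at the matrix with the rows `BB (A i)` -/
noncomputable def ev (a b : Fin m → Fin n) (A : Equiv.Perm (Fin n)) (P : MvPolynomial (Fin n × Fin n) K) : K :=
  eval (fun v => BB K a b (A v.1) v.2) P

open Classical in
theorem perm_ne (a b : Fin m → Fin n) (A : Equiv.Perm (Fin n)) :
    ev a b A (Matrix.permanent (Matrix.of fun i j => (X (i, j) : MvPolynomial (Fin n × Fin n) K))) ≠ 0 := by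
  unfold ev
  rw [Matrix.permanent]
  simp only [Matrix.of_apply, map_sum, map_prod, eval_X]
  have h1 : ∀ σ : Equiv.Perm (Fin n), ∏ i, BB K a b (A (σ i)) i =
      (∏ i, vv K b i) * ((if ∀ i, Same a b (A (σ i)) i then 1 else 0 : ℕ) : K) := by
    intro σ
    by_cases h : ∀ i, Same a b (A (σ i)) i
    · rw [if_pos h, Nat.cast_one, mul_one]
      exact prod_congr rfl fun i _ => if_pos (h i)
    · rw [if_neg h, Nat.cast_zero, mul_zero]
      push Not at h
      obtain ⟨i, hi⟩ := h
      exact prod_eq_zero (mem_univ i) (if_neg hi)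
  rw [sum_congr rfl fun σ _ => h1 σ, ← mul_sum, ← Nat.cast_sum]
  apply mul_ne_zero
  · apply prod_ne_zero_iff.2
    intro i _
    unfold vv
    split <;> simp
  · rw [Nat.cast_ne_zero]
    apply ne_of_gt
    apply Finset.sum_pos' (fun _ _ => Nat.zero_le _)
    refine ⟨A⁻¹, mem_univ _, ?_⟩
    rw [if_pos]
    · exact Nat.one_pos
    · intro i
      left
      simp

open Classical in
/-- the type of a polynomial: the rows in which it is odd -/
noncomputable def typ (row : Slot m → Fin n) (P : MvPolynomial (Fin n × Fin n) K) : Finset (Slot m) :=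
  univ.filter fun x => ¬ (rowNeg (row x) P = P)

/-- even or odd in each of the rows `row x` -/
def Par (row : Slot m → Fin n) (P : MvPolynomial (Fin n × Fin n) K) : Prop :=
  ∀ x, rowNeg (row x) P = P ∨ rowNeg (row x) P = - P

theorem eval_rowNeg (i : Fin n) (N : Fin n × Fin n → K) (P : MvPolynomial (Fin n × Fin n) K) :
    eval N (rowNeg i P) = eval (fun v => if v.1 = i then - N v else N v) P := by
  unfold rowNeg
  rw [← MvPolynomial.coe_aeval_eq_eval, ← MvPolynomial.coe_aeval_eq_eval]
  simp only [RingHom.coe_coe]
  rw [← AlgHom.comp_apply, MvPolynomial.comp_aeval]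
  congr 2
  funext v
  split <;> simp

open Classical in
/-- evaluation with scaled rows -/
theorem eval_scale (row : Slot m → Fin n) (hrow : Function.Injective row) (M : Fin n × Fin n → K)
    (P : MvPolynomial (Fin n × Fin n) K) (hP : Par row P) (Z : Finset (Slot m)) (w : Slot m → ℤˣ)
    (hw : ∀ x, x ∉ Z → w x = 1) (η : Fin n → K) (h1 : ∀ x, η (row x) = ((w x : ℤ) : K))
    (h2 : ∀ i, (∀ x, i ≠ row x) → η i = 1) :
    eval (fun v => η v.1 * M v) P = (∏ x ∈ typ row P, ((w x : ℤ) : K)) * eval M P := by
  induction Z using Finset.induction_on generalizing w η with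
  | empty =>
    have : ∀ x, w x = 1 := fun x => hw x (by simp)
    have h3 : ∀ i, η i = 1 := by
      intro i
      by_cases h : ∃ x, i = row x
      · obtain ⟨x, rfl⟩ := h
        rw [h1, this]; simp
      · push Not at h
        exact h2 i h
    simp [h3, this]
  | insert x Z hx ih =>
    rcases Int.units_eq_one_or (w x) with h | h
    · refine ih w ?_ η h1 h2
      intro y hy
      by_cases hyx : y = x
      · rw [hyx]; exact h
      · exact hw y (by simp [hyx, hy])
    · -- `w x = -1`
      let w' : Slot m → ℤˣ := Function.update w x 1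
      let η' : Fin n → K := fun i => if i = row x then 1 else η i
      have e1 : eval (fun v => η v.1 * M v) P = eval (fun v => η' v.1 * M v) (rowNeg (row x) P) := by
        rw [eval_rowNeg]
        congr 2
        funext v
        by_cases hv : v.1 = row x
        · rw [if_pos hv, hv, h1, h]
          simp [η']
        · rw [if_neg hv]
          simp [η', hv]
      have e2 := ih w' (by
        intro y hy
        by_cases hyx : y = x
        · rw [hyx]; simp [w']
        · simp only [w', Function.update_of_ne hyx]
          exact hw y (by simp [hyx, hy])) η' (by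
        intro y
        by_cases hyx : y = x
        · rw [hyx]; simp [η', w']
        · have : row y ≠ row x := fun h => hyx (hrow h)
          simp only [η', w', if_neg this, Function.update_of_ne hyx]
          exact h1 y) (by
        intro i hi
        simp only [η', if_neg (hi x)]
        exact h2 i hi)
      by_cases hxt : x ∈ typ row P
      · have hn : rowNeg (row x) P = - P := by
          rcases hP x with h3 | h3
          · exact absurd h3 (mem_filter.1 hxt).2
          · exact h3
        rw [e1, hn, map_neg, e2, ← mul_prod_erase _ _ hxt, ← mul_prod_erase _ _ hxt, h]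
        have : ∏ y ∈ (typ row P).erase x, ((w' y : ℤ) : K) = ∏ y ∈ (typ row P).erase x, ((w y : ℤ) : K) := by
          refine prod_congr rfl fun y hy => ?_
          simp only [w', Function.update_of_ne (ne_of_mem_erase hy)]
        rw [this]
        simp [w']
      · have hn : rowNeg (row x) P = P := by
          by_contra hc
          exact hxt (mem_filter.2 ⟨mem_univ _, hc⟩)
        rw [e1, hn, e2]
        congr 1
        refine prod_congr rfl fun y hy => ?_
        have : y ≠ x := fun h => hxt (h ▸ hy)
        simp only [w', Function.update_of_ne this]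

end

section
variable {n m : ℕ} {K : Type u} [Field K] [CharZero K]

/-- the action of a sign vector on the columns -/
def Acts (a b : Fin m → Fin n) (q : Sg m) (e : Equiv.Perm (Fin n)) : Prop :=
  (∀ p, q p = -1 → e (a p) = b p ∧ e (b p) = a p) ∧ (∀ p, q p = 1 → e (a p) = a p ∧ e (b p) = b p) ∧
    (∀ j, (∀ p, j ≠ a p ∧ j ≠ b p) → e j = j)

theorem BB_col (a b : Fin m → Fin n) (h : Function.Injective (col a b)) (p : Fin m) (t : Bool) (j : Fin n) :
    BB K a b (col a b (p, t)) j = if j = a p then 1 else if j = b p then -1 else 0 := by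
  have hab : ∀ p p', a p ≠ b p' := by
    intro p p' h'
    have := @h (p, false) (p', true) (by simp [col, h'])
    simp at this
  have haa : ∀ p p', a p = a p' → p = p' := by
    intro p p' h'
    have := @h (p, false) (p', false) (by simp [col, h'])
    simpa using this
  have hbb : ∀ p p', b p = b p' → p = p' := by
    intro p p' h'
    have := @h (p, true) (p', true) (by simp [col, h'])
    simpa using this
  have hS : Same a b (col a b (p, t)) j ↔ (j = a p ∨ j = b p) := by
    constructor
    · rintro (h1 | ⟨p', h1, h2⟩)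
      · cases t
        · left; rw [← h1]; simp [col]
        · right; rw [← h1]; simp [col]
      · have : p = p' := by
          cases t
          · simp only [col] at h1
            rcases h1 with h1 | h1
            · exact haa _ _ (by simpa using h1)
            · exact absurd (by simpa using h1) (hab p p')
          · simp only [col] at h1
            rcases h1 with h1 | h1
            · exact absurd (by simpa using h1 : b p = a p').symm (hab p' p)
            · exact hbb _ _ (by simpa using h1)
        subst this
        exact h2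
    · intro h1
      right
      refine ⟨p, ?_, h1⟩
      cases t
      · left; simp [col]
      · right; simp [col]
  unfold BB vv
  by_cases h1 : j = a p
  · rw [if_pos (hS.2 (Or.inl h1)), if_pos h1, if_neg]
    rintro ⟨p', hp'⟩
    exact hab p p' (h1 ▸ hp')
  · by_cases h2 : j = b p
    · rw [if_pos (hS.2 (Or.inr h2)), if_neg h1, if_pos h2, if_pos ⟨p, h2⟩]
    · rw [if_neg, if_neg h1, if_neg h2]
      intro h3
      rcases hS.1 h3 with h4 | h4
      · exact h1 h4
      · exact h2 h4

theorem BB_not (a b : Fin m → Fin n) (c : Fin n) (hc : ∀ x, c ≠ col a b x) (j : Fin n) :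
    BB K a b c j = if j = c then 1 else 0 := by
  have hca : ∀ p, c ≠ a p := fun p h => hc (p, false) (by simp [col, h])
  have hcb : ∀ p, c ≠ b p := fun p h => hc (p, true) (by simp [col, h])
  have hS : Same a b c j ↔ j = c := by
    constructor
    · rintro (h1 | ⟨p', h1, h2⟩)
      · exact h1.symm
      · rcases h1 with h1 | h1
        · exact absurd h1 (hca p')
        · exact absurd h1 (hcb p')
    · intro h1
      left; exact h1.symm
  unfold BB vv
  by_cases h1 : j = c
  · rw [if_pos (hS.2 h1), if_pos h1, if_neg]
    rintro ⟨p', hp'⟩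
    exact hcb p' (h1 ▸ hp')
  · rw [if_neg (fun h3 => h1 (hS.1 h3)), if_neg h1]

theorem BB_act_col (a b : Fin m → Fin n) (h : Function.Injective (col a b)) (q : Sg m)
    (e : Equiv.Perm (Fin n)) (he : Acts a b q e) (x : Slot m) (j : Fin n) :
    BB K a b (col a b x) (e j) = ((q x.1 : ℤ) : K) * BB K a b (col a b x) j := by
  obtain ⟨p, t⟩ := x
  have hab : a p ≠ b p := by
    intro h'
    have := @h (p, false) (p, true) (by simp [col, h'])
    simp at this
  rw [BB_col a b h, BB_col a b h]
  rcases Int.units_eq_one_or (q p) with hq | hq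
  · obtain ⟨e1, e2⟩ := he.2.1 p hq
    have f1 : e j = a p ↔ j = a p := by
      constructor
      · intro h1; exact e.injective (h1.trans e1.symm)
      · intro h1; rw [h1, e1]
    have f2 : e j = b p ↔ j = b p := by
      constructor
      · intro h1; exact e.injective (h1.trans e2.symm)
      · intro h1; rw [h1, e2]
    simp only [f1, f2, hq]
    simp
  · obtain ⟨e1, e2⟩ := he.1 p hq
    have f1 : e j = a p ↔ j = b p := by
      constructor
      · intro h1; exact e.injective (h1.trans e2.symm)
      · intro h1; rw [h1, e2]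
    have f2 : e j = b p ↔ j = a p := by
      constructor
      · intro h1; exact e.injective (h1.trans e1.symm)
      · intro h1; rw [h1, e1]
    simp only [f1, f2, hq]
    by_cases h1 : j = a p
    · have h2 : j ≠ b p := fun h2 => hab (h1 ▸ h2)
      simp [h1, hab]
    · by_cases h2 : j = b p
      · simp [h2, hab.symm]
      · simp [h1, h2]

theorem BB_act_not (a b : Fin m → Fin n) (q : Sg m)
    (e : Equiv.Perm (Fin n)) (he : Acts a b q e) (c : Fin n) (hc : ∀ x, c ≠ col a b x) (j : Fin n) :
    BB K a b c (e j) = BB K a b c j := by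
  rw [BB_not a b c hc, BB_not a b c hc]
  have e1 : e c = c := he.2.2 c (fun p => ⟨fun h => hc (p, false) (by simp [col, h]),
    fun h => hc (p, true) (by simp [col, h])⟩)
  have f1 : e j = c ↔ j = c := by
    constructor
    · intro h1; exact e.injective (h1.trans e1.symm)
    · intro h1; rw [h1, e1]
  simp only [f1]

open Classical in
/-- evaluation after a permutation of the columns -/
theorem ev_rename (a b : Fin m → Fin n) (h : Function.Injective (col a b)) (q : Sg m)
    (e : Equiv.Perm (Fin n)) (he : Acts a b q e) (row : Slot m → Fin n) (hrow : Function.Injective row)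
    (A : Equiv.Perm (Fin n)) (ρ : Equiv.Perm (Slot m)) (hA : ∀ x, A (row x) = col a b (ρ x))
    (P : MvPolynomial (Fin n × Fin n) K) (hP : Par row P) :
    ev a b A (rename (fun v => (v.1, e v.2)) P) = chi K ((typ row P).map ρ.toEmbedding) q * ev a b A P := by
  unfold ev
  rw [eval_rename]
  let η : Fin n → K := fun i => if hx : ∃ x, i = row x then ((q (ρ hx.choose).1 : ℤ) : K) else 1
  have hη : ∀ x, η (row x) = ((q (ρ x).1 : ℤ) : K) := by
    intro x
    have hx : ∃ y, row x = row y := ⟨x, rfl⟩
    have : hx.choose = x := (hrow hx.choose_spec).symm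
    simp only [η]
    rw [dif_pos hx, this]
  have hη2 : ∀ i, (∀ x, i ≠ row x) → η i = 1 := by
    intro i hi
    simp only [η]
    rw [dif_neg]
    rintro ⟨x, hx⟩
    exact hi x hx
  have e1 : ((fun v : Fin n × Fin n => BB K a b (A v.1) v.2) ∘ fun v : Fin n × Fin n => (v.1, e v.2)) =
      fun v : Fin n × Fin n => η v.1 * BB K a b (A v.1) v.2 := by
    funext v
    simp only [Function.comp]
    by_cases hx : ∃ x, v.1 = row x
    · obtain ⟨x, hx⟩ := hx
      rw [hx, hη, hA, BB_act_col a b h q e he]
    · push Not at hx
      rw [hη2 _ hx, one_mul]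
      apply BB_act_not a b q e he
      intro y hy
      have : A v.1 = A (row (ρ⁻¹ y)) := by rw [hA]; simpa using hy
      exact hx _ (A.injective this)
  rw [e1, eval_scale row hrow (fun v => BB K a b (A v.1) v.2) P hP univ (fun x => q (ρ x).1)
    (fun x hx => absurd (mem_univ x) hx) η hη hη2]
  congr 1
  rw [chi_apply, Finset.prod_map]
  rfl

end

section
variable {n m s : ℕ} {K : Type u} [Field K] [CharZero K]

/-- the permutation of the variables -/
def ren (e : Equiv.Perm (Fin n)) (v : Fin n × Fin n) : Fin n × Fin n := (v.1, e v.2)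

theorem poly_act (Φ : Circuit n K s) (e : Equiv.Perm (Fin n)) (π : Equiv.Perm (Fin s))
    (h : ∀ g, Φ.label (π g) = (Φ.label g).act e π) (g : Fin s) :
    Φ.poly (π g) = rename (ren e) (Φ.poly g) := by
  induction g using WellFoundedLT.induction with
  | ind g ih =>
    have h1 := h g
    have h2 := Φ.acyclic g
    generalize hl : Φ.label g = L at h1 h2
    cases L with
    | var i j => rw [poly_var Φ h1, poly_var Φ hl, rename_X]; rfl
    | const c => rw [poly_const Φ h1, poly_const Φ hl, rename_C]
    | add l =>
      rw [poly_add Φ h1, poly_add Φ hl, map_multiset_sum, Multiset.map_map, Multiset.map_map]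
      congr 1
      exact Multiset.map_congr rfl fun c hc => ih c (h2 c hc)
    | mul l =>
      rw [poly_mul Φ h1, poly_mul Φ hl, map_multiset_prod, Multiset.map_map, Multiset.map_map]
      congr 1
      exact Multiset.map_congr rfl fun c hc => ih c (h2 c hc)

theorem rowNeg_rename (i : Fin n) (e : Equiv.Perm (Fin n)) (P : MvPolynomial (Fin n × Fin n) K) :
    rowNeg i (rename (ren e) P) = rename (ren e) (rowNeg i P) := by
  unfold rowNeg
  rw [aeval_rename]
  have : (rename (ren e) : MvPolynomial (Fin n × Fin n) K →ₐ[K] _) ((aeval fun v => if v.1 = i then - X v else X v) P)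
      = aeval (fun v => (rename (ren e) : MvPolynomial (Fin n × Fin n) K →ₐ[K] _) (if v.1 = i then - X v else X v)) P := by
    rw [← AlgHom.comp_apply, comp_aeval]
  rw [this]
  congr 2
  funext v
  simp only [Function.comp, ren]
  split <;> simp [ren, *]

theorem rename_inj (e : Equiv.Perm (Fin n)) :
    Function.Injective (rename (ren e) : MvPolynomial (Fin n × Fin n) K →ₐ[K] _) := by
  apply rename_injective
  rintro ⟨a, b⟩ ⟨c, d⟩ h
  simp only [ren, Prod.mk.injEq] at h
  rw [Prod.mk.injEq]
  exact ⟨h.1, e.injective h.2⟩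

theorem typ_rename (row : Slot m → Fin n) (e : Equiv.Perm (Fin n)) (P : MvPolynomial (Fin n × Fin n) K) :
    typ row (rename (ren e) P) = typ row P := by
  unfold typ
  ext x
  simp only [mem_filter, mem_univ, true_and]
  rw [rowNeg_rename, (rename_inj e).eq_iff]

/-- the product of the inputs of `u` whose types belong to `𝒯` -/
noncomputable def GG (row : Slot m → Fin n) (Φ : Circuit n K s) (u : Fin s) (𝒯 : Finset (Finset (Slot m))) :
    MvPolynomial (Fin n × Fin n) K :=
  (((Φ.label u).inputs.filter fun c => typ row (Φ.poly c) ∈ 𝒯).map Φ.poly).prod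

theorem GG_act (row : Slot m → Fin n) (Φ : Circuit n K s) (e : Equiv.Perm (Fin n)) (π : Equiv.Perm (Fin s))
    (h : ∀ g, Φ.label (π g) = (Φ.label g).act e π) (u : Fin s) (𝒯 : Finset (Finset (Slot m))) :
    GG row Φ (π u) 𝒯 = rename (ren e) (GG row Φ u 𝒯) := by
  have h1 : (Φ.label (π u)).inputs = (Φ.label u).inputs.map π := by
    rw [h]
    cases Φ.label u <;> rfl
  unfold GG
  rw [h1, Multiset.filter_map, Multiset.map_map, map_multiset_prod, Multiset.map_map]
  have h2 : (fun c => typ row (Φ.poly c) ∈ 𝒯) ∘ π = fun c => typ row (Φ.poly c) ∈ 𝒯 := by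
    funext c
    simp only [Function.comp]
    rw [poly_act Φ e π h, typ_rename]
  congr 1
  rw [Multiset.filter_congr (q := fun c => typ row (Φ.poly c) ∈ 𝒯)]
  · exact Multiset.map_congr rfl fun c _ => poly_act Φ e π h c
  · intro c _
    exact iff_of_eq (congrFun h2 c)

theorem par_mul (row : Slot m → Fin n) {P Q : MvPolynomial (Fin n × Fin n) K} (hP : Par row P)
    (hQ : Par row Q) : Par row (P * Q) := by
  intro x
  rcases hP x with h1 | h1 <;> rcases hQ x with h2 | h2
  · left; rw [map_mul, h1, h2]
  · right; rw [map_mul, h1, h2]; ring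
  · right; rw [map_mul, h1, h2]; ring
  · left; rw [map_mul, h1, h2]; ring

theorem par_prod (row : Slot m → Fin n) (l : Multiset (MvPolynomial (Fin n × Fin n) K))
    (hl : ∀ P ∈ l, Par row P) : Par row l.prod := by
  induction l using Multiset.induction_on with
  | empty => intro x; left; simp
  | cons P l ih =>
    rw [Multiset.prod_cons]
    exact par_mul row (hl P (Multiset.mem_cons_self _ _)) (ih fun Q hQ => hl Q (Multiset.mem_cons_of_mem hQ))

theorem par_GG (row : Slot m → Fin n) (Φ : Circuit n K s) (hΦ : ∀ g, Par row (Φ.poly g)) (u : Fin s)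
    (𝒯 : Finset (Finset (Slot m))) : Par row (GG row Φ u 𝒯) := by
  apply par_prod
  intro P hP
  rw [Multiset.mem_map] at hP
  obtain ⟨c, -, rfl⟩ := hP
  exact hΦ c

theorem typ_mul_subset (row : Slot m → Fin n) (P Q : MvPolynomial (Fin n × Fin n) K) :
    typ row (P * Q) ⊆ typ row P ∪ typ row Q := by
  intro x hx
  rw [mem_union]
  by_contra hc
  push Not at hc
  obtain ⟨h1, h2⟩ := hc
  unfold typ at h1 h2 hx
  simp only [mem_filter, mem_univ, true_and, not_not] at h1 h2 hx
  exact hx (by rw [map_mul, h1, h2])

theorem typ_prod_subset (row : Slot m → Fin n) (l : Multiset (MvPolynomial (Fin n × Fin n) K))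
    (T : Finset (Slot m)) (hl : ∀ P ∈ l, typ row P ⊆ T) : typ row l.prod ⊆ T := by
  induction l using Multiset.induction_on with
  | empty =>
    intro x hx
    unfold typ at hx
    simp at hx
  | cons P l ih =>
    rw [Multiset.prod_cons]
    refine (typ_mul_subset row _ _).trans (union_subset (hl P (Multiset.mem_cons_self _ _)) ?_)
    exact ih fun Q hQ => hl Q (Multiset.mem_cons_of_mem hQ)

theorem GG_insert (row : Slot m → Fin n) (Φ : Circuit n K s) (u : Fin s) (𝒯 : Finset (Finset (Slot m)))
    (T : Finset (Slot m)) (hT : T ∉ 𝒯) :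
    GG row Φ u (insert T 𝒯) = GG row Φ u {T} * GG row Φ u 𝒯 := by
  unfold GG
  rw [← Multiset.prod_add, ← Multiset.map_add]
  congr 2
  rw [Multiset.filter_add_filter]
  have h0 : (Φ.label u).inputs.filter (fun c => typ row (Φ.poly c) ∈ ({T} : Finset (Finset (Slot m))) ∧ typ row (Φ.poly c) ∈ 𝒯) = 0 := by
    rw [Multiset.filter_eq_nil]
    rintro c _ ⟨h1, h2⟩
    rw [mem_singleton] at h1
    exact hT (h1 ▸ h2)
  rw [h0, add_zero]
  exact Multiset.filter_congr fun c _ => by rw [mem_insert, mem_singleton]

/-- greedy choice of a balanced subproduct -/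
theorem greedy (row : Slot m → Fin n) (Φ : Circuit n K s) (u : Fin s)
    (hs : ∀ c ∈ (Φ.label u).inputs, 3 * (typ row (Φ.poly c)).card ≤ 2 * m) (𝒯 : Finset (Finset (Slot m)))
    (hb : 2 * m < 3 * (typ row (GG row Φ u 𝒯)).card) :
    ∃ 𝒯', 2 * m < 3 * (typ row (GG row Φ u 𝒯')).card ∧ 3 * (typ row (GG row Φ u 𝒯')).card ≤ 4 * m := by
  induction 𝒯 using Finset.induction_on with
  | empty =>
    exfalso
    have : GG row Φ u (∅ : Finset (Finset (Slot m))) = 1 := by
      unfold GG
      simp
    rw [this] at hb
    have h1 : typ row (1 : MvPolynomial (Fin n × Fin n) K) = ∅ := by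
      unfold typ
      simp
    rw [h1] at hb
    simp at hb
  | insert T 𝒯 hT ih =>
    rcases Nat.lt_or_ge (2 * m) (3 * (typ row (GG row Φ u 𝒯)).card) with h | h
    · exact ih h
    · refine ⟨insert T 𝒯, hb, ?_⟩
      rw [GG_insert row Φ u 𝒯 T hT]
      have h1 := card_le_card (typ_mul_subset row (GG row Φ u {T}) (GG row Φ u 𝒯))
      have h2 := card_union_le (typ row (GG row Φ u {T})) (typ row (GG row Φ u 𝒯))
      have h3 : 3 * (typ row (GG row Φ u {T})).card ≤ 2 * m := by
        by_cases hc : ∃ c ∈ (Φ.label u).inputs, typ row (Φ.poly c) = T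
        · obtain ⟨c, hc1, hc2⟩ := hc
          have h4 : typ row (GG row Φ u {T}) ⊆ T := by
            apply typ_prod_subset
            intro P hP
            rw [Multiset.mem_map] at hP
            obtain ⟨d, hd, rfl⟩ := hP
            rw [Multiset.mem_filter, mem_singleton] at hd
            rw [hd.2]
          have h5 := card_le_card h4
          have h6 := hs c hc1
          rw [hc2] at h6
          omega
        · push Not at hc
          have h4 : GG row Φ u {T} = 1 := by
            unfold GG
            rw [Multiset.filter_eq_nil.2]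
            · simp
            · intro c hc1 hc2
              rw [mem_singleton] at hc2
              exact hc c hc1 hc2
          rw [h4]
          have h1 : typ row (1 : MvPolynomial (Fin n × Fin n) K) = ∅ := by
            unfold typ
            simp
          rw [h1]
          simp
      omega

end

section
variable {n m s : ℕ} {K : Type u} [Field K] [CharZero K]

theorem typ_X (row : Slot m → Fin n) (hrow : Function.Injective row) (i j : Fin n) :
    (typ row (X (i, j) : MvPolynomial (Fin n × Fin n) K)).card ≤ 1 := by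
  rw [Finset.card_le_one]
  have h : ∀ x ∈ typ row (X (i, j) : MvPolynomial (Fin n × Fin n) K), i = row x := by
    intro x hx
    by_contra hc
    unfold typ at hx
    simp only [mem_filter, mem_univ, true_and] at hx
    apply hx
    unfold rowNeg
    rw [aeval_X, if_neg hc]
  intro x hx y hy
  exact hrow ((h x hx).symm.trans (h y hy))

open Classical in
theorem typ_C (row : Slot m → Fin n) (c : K) :
    typ row (C c : MvPolynomial (Fin n × Fin n) K) = ∅ := by
  unfold typ
  rw [Finset.filter_eq_empty_iff]
  intro x _
  rw [not_not]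
  unfold rowNeg
  rw [aeval_C]
  rfl

open Classical in
/-- in a sum only the summands of the same type matter -/
theorem sum_filter (row : Slot m → Fin n) (l : Multiset (MvPolynomial (Fin n × Fin n) K))
    (hl : ∀ P ∈ l, Par row P) (hsum : Par row l.sum) (Z : Finset (Slot m)) :
    l.sum = (l.filter fun P => ∀ x ∈ Z, (x ∈ typ row P ↔ x ∈ typ row l.sum)).sum := by
  induction Z using Finset.induction_on with
  | empty => simp
  | insert x Z hx ih =>
    set T := typ row l.sum with hT
    set l' := l.filter fun P => ∀ x ∈ Z, (x ∈ typ row P ↔ x ∈ T) with hl'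
    have hl2 : ∀ P ∈ l', Par row P := fun P hP => hl P (Multiset.mem_of_le (Multiset.filter_le _ _) hP)
    have e1 : (l.filter fun P => ∀ y ∈ insert x Z, (y ∈ typ row P ↔ y ∈ T)) =
        l'.filter fun P => (x ∈ typ row P ↔ x ∈ T) := by
      rw [hl', Multiset.filter_filter]
      apply Multiset.filter_congr
      intro P _
      rw [Finset.forall_mem_insert]
    rw [e1]
    -- sign of the row `x` in the sum
    have key : ∀ l'' : Multiset (MvPolynomial (Fin n × Fin n) K), (∀ P ∈ l'', Par row P) → ∀ ε : K,
        (ε = 1 ∨ ε = -1) →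
        l''.sum + C ε * rowNeg (row x) l''.sum =
          2 * (l''.filter fun P => rowNeg (row x) P = C ε * P).sum := by
      intro l'' h'' ε hε
      induction l'' using Multiset.induction_on with
      | empty => simp
      | cons P l'' ih2 =>
        have ih3 := ih2 fun Q hQ => h'' Q (Multiset.mem_cons_of_mem hQ)
        have hε2 : (C ε * C ε : MvPolynomial (Fin n × Fin n) K) = 1 := by
          rw [← C_mul]
          rcases hε with h | h <;> rw [h] <;> simp
        by_cases hP : rowNeg (row x) P = C ε * P
        · rw [Multiset.filter_cons_of_pos (p := fun P => rowNeg (row x) P = C ε * P) _ hP, Multiset.sum_cons, Multiset.sum_cons, map_add, hP]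
          linear_combination ih3 + P * hε2
        · rw [Multiset.filter_cons_of_neg (p := fun P => rowNeg (row x) P = C ε * P) _ hP, Multiset.sum_cons, map_add]
          have hP2 : rowNeg (row x) P = - (C ε * P) := by
            rcases h'' P (Multiset.mem_cons_self _ _) x with h3 | h3
            · rcases hε with h | h
              · exact absurd (by rw [h3, h]; simp) hP
              · rw [h3, h]; simp
            · rcases hε with h | h
              · rw [h3, h]; simp
              · exact absurd (by rw [h3, h]; simp) hP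
          rw [hP2]
          linear_combination ih3 - P * hε2
    have h2 : (2 : MvPolynomial (Fin n × Fin n) K) ≠ 0 := by
      have : (2 : MvPolynomial (Fin n × Fin n) K) = C 2 := (map_ofNat C 2).symm
      rw [this, Ne, C_eq_zero]
      norm_num
    have hodd : ∀ P : MvPolynomial (Fin n × Fin n) K, P ≠ 0 → Par row P → (x ∈ typ row P ↔ rowNeg (row x) P = - P) := by
      intro P hP hPar
      unfold typ
      simp only [mem_filter, mem_univ, true_and]
      constructor
      · intro h
        rcases hPar x with h3 | h3
        · exact absurd h3 h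
        · exact h3
      · intro h h3
        apply hP
        have h4 : P = - P := h3.symm.trans h
        have : 2 * P = 0 := by linear_combination h4
        rcases mul_eq_zero.1 this with h5 | h5
        · exact absurd h5 h2
        · exact h5
    by_cases h0 : l.sum = 0
    · -- everything is zero
      have hTx : x ∉ T := by
        rw [hT, h0]
        unfold typ
        simp
      have := key l' hl2 1 (Or.inl rfl)
      rw [← ih, h0] at this
      have h3 : (l'.filter fun P => rowNeg (row x) P = C 1 * P).sum = 0 := by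
        rcases mul_eq_zero.1 (this.symm.trans (by simp)) with h5 | h5
        · exact absurd h5 h2
        · exact h5
      rw [h0, ← h3]
      congr 1
      apply Multiset.filter_congr
      intro P _
      rw [C_1, one_mul]
      unfold typ
      simp only [mem_filter, mem_univ, true_and, hTx, iff_false, not_not]
    · by_cases hxT : x ∈ T
      · have h4 := (hodd _ h0 hsum).1 hxT
        have := key l' hl2 (-1) (Or.inr rfl)
        rw [← ih, h4] at this
        have h3 : l.sum = (l'.filter fun P => rowNeg (row x) P = C (-1) * P).sum := by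
          apply mul_left_cancel₀ h2
          rw [← this]
          simp
          ring
        have h5 : ∀ l'' : Multiset (MvPolynomial (Fin n × Fin n) K), (∀ P ∈ l'', Par row P) →
            (l''.filter fun P => rowNeg (row x) P = C (-1) * P).sum = (l''.filter fun P => x ∈ typ row P).sum := by
          intro l'' h''
          induction l'' using Multiset.induction_on with
          | empty => simp
          | cons P l'' ih2 =>
            have ih3 := ih2 fun Q hQ => h'' Q (Multiset.mem_cons_of_mem hQ)
            by_cases hP0 : P = 0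
            · have a1 : rowNeg (row x) P = C (-1) * P := by rw [hP0]; simp
              have a2 : x ∉ typ row P := by
                rw [hP0]
                unfold typ
                simp
              rw [Multiset.filter_cons_of_pos (p := fun P => rowNeg (row x) P = C (-1) * P) _ a1, Multiset.filter_cons_of_neg (p := fun P => x ∈ typ row P) _ a2, Multiset.sum_cons, ih3,
                hP0, zero_add]
            · have a3 := hodd P hP0 (h'' P (Multiset.mem_cons_self _ _))
              by_cases hP : x ∈ typ row P
              · have a1 : rowNeg (row x) P = C (-1) * P := by rw [a3.1 hP]; simp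
                rw [Multiset.filter_cons_of_pos (p := fun P => rowNeg (row x) P = C (-1) * P) _ a1, Multiset.filter_cons_of_pos (p := fun P => x ∈ typ row P) _ hP, Multiset.sum_cons,
                  Multiset.sum_cons, ih3]
              · have a1 : ¬ rowNeg (row x) P = C (-1) * P := by
                  intro hc
                  apply hP
                  apply a3.2
                  rw [hc]; simp
                rw [Multiset.filter_cons_of_neg (p := fun P => rowNeg (row x) P = C (-1) * P) _ a1, Multiset.filter_cons_of_neg (p := fun P => x ∈ typ row P) _ hP, ih3]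
        rw [h5 l' hl2] at h3
        refine h3.trans ?_
        congr 1
        apply Multiset.filter_congr
        intro P _
        simp [hxT]
      · have h4 : rowNeg (row x) l.sum = l.sum := by
          by_contra hc
          exact hxT (by rw [hT]; unfold typ; simp [hc])
        have := key l' hl2 1 (Or.inl rfl)
        rw [← ih, h4] at this
        have h3 : l.sum = (l'.filter fun P => rowNeg (row x) P = C 1 * P).sum := by
          apply mul_left_cancel₀ h2
          rw [← this]
          simp
          ring
        refine h3.trans ?_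
        congr 1
        apply Multiset.filter_congr
        intro P _
        rw [C_1, one_mul]
        unfold typ
        simp only [mem_filter, mem_univ, true_and, hxT, iff_false, not_not]

end

section
variable {n m s : ℕ} {K : Type u} [Field K] [CharZero K]

/-- the walk from the output to a balanced gate or to a product gate with small inputs -/
theorem walk (a b : Fin m → Fin n) (row : Slot m → Fin n) (hrow : Function.Injective row)
    (Φ : Circuit n K s) (hΦ : ∀ g, Par row (Φ.poly g)) (A : Equiv.Perm (Fin n)) (hm : 0 < m) (u : Fin s)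
    (hu : ev a b A (Φ.poly u) ≠ 0) (hbig : 4 * m < 3 * (typ row (Φ.poly u)).card) :
    ∃ v, (ev a b A (Φ.poly v) ≠ 0 ∧ 2 * m < 3 * (typ row (Φ.poly v)).card ∧
        3 * (typ row (Φ.poly v)).card ≤ 4 * m) ∨
      (ev a b A (Φ.poly v) ≠ 0 ∧ (∃ l, Φ.label v = .mul l) ∧ 4 * m < 3 * (typ row (Φ.poly v)).card ∧
        ∀ c ∈ (Φ.label v).inputs, 3 * (typ row (Φ.poly c)).card ≤ 2 * m) := by
  classical
  induction u using WellFoundedLT.induction with
  | ind u ih =>
    have h2 := Φ.acyclic u
    generalize hl : Φ.label u = L at h2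
    cases L with
    | var i j =>
      rw [poly_var Φ hl] at hbig
      have := typ_X (K := K) row hrow i j
      omega
    | const c =>
      rw [poly_const Φ hl, typ_C, card_empty] at hbig
      omega
    | add l =>
      have e1 : Φ.poly u = (l.map Φ.poly).sum := poly_add Φ hl
      have hp : ∀ P ∈ l.map Φ.poly, Par row P := by
        intro P hP
        rw [Multiset.mem_map] at hP
        obtain ⟨c, -, rfl⟩ := hP
        exact hΦ c
      have e2 := sum_filter row (l.map Φ.poly) hp (e1 ▸ hΦ u) univ
      rw [← e1] at e2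
      have e3 : ∃ P ∈ (l.map Φ.poly).filter (fun P => ∀ x ∈ univ, (x ∈ typ row P ↔ x ∈ typ row (Φ.poly u))),
          ev a b A P ≠ 0 := by
        by_contra hc
        push Not at hc
        apply hu
        rw [e2]
        unfold ev at hc ⊢
        rw [map_multiset_sum]
        apply Multiset.sum_eq_zero
        intro y hy
        rw [Multiset.mem_map] at hy
        obtain ⟨P, hP, rfl⟩ := hy
        exact hc P hP
      obtain ⟨P, hP, hP2⟩ := e3
      rw [Multiset.mem_filter, Multiset.mem_map] at hP
      obtain ⟨⟨c, hc, rfl⟩, hP3⟩ := hP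
      have e4 : typ row (Φ.poly c) = typ row (Φ.poly u) := by
        ext x
        exact hP3 x (mem_univ x)
      exact ih c (h2 c hc) hP2 (by rw [e4]; exact hbig)
    | mul l =>
      have e1 : Φ.poly u = (l.map Φ.poly).prod := poly_mul Φ hl
      have e2 : ∀ c ∈ l, ev a b A (Φ.poly c) ≠ 0 := by
        intro c hc h0
        apply hu
        rw [e1]
        unfold ev at h0 ⊢
        rw [map_multiset_prod, Multiset.map_map]
        apply Multiset.prod_eq_zero
        rw [Multiset.mem_map]
        exact ⟨c, hc, h0⟩
      by_cases h3 : ∃ c ∈ l, 4 * m < 3 * (typ row (Φ.poly c)).card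
      · obtain ⟨c, hc, hc2⟩ := h3
        exact ih c (h2 c hc) (e2 c hc) hc2
      · push Not at h3
        by_cases h4 : ∃ c ∈ l, 2 * m < 3 * (typ row (Φ.poly c)).card
        · obtain ⟨c, hc, hc2⟩ := h4
          exact ⟨c, Or.inl ⟨e2 c hc, hc2, h3 c hc⟩⟩
        · push Not at h4
          refine ⟨u, Or.inr ⟨hu, ⟨l, hl⟩, hbig, ?_⟩⟩
          rw [hl]
          exact h4

theorem GG_univ (row : Slot m → Fin n) (Φ : Circuit n K s) (v : Fin s) (l : Multiset (Fin s))
    (hl : Φ.label v = .mul l) : GG row Φ v univ = Φ.poly v := by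
  unfold GG
  rw [hl, poly_mul Φ hl]
  simp [Label.inputs]

theorem ev_GG (a b : Fin m → Fin n) (row : Slot m → Fin n) (Φ : Circuit n K s) (A : Equiv.Perm (Fin n))
    (v : Fin s) (l : Multiset (Fin s)) (hl : Φ.label v = .mul l) (hv : ev a b A (Φ.poly v) ≠ 0)
    (𝒯 : Finset (Finset (Slot m))) : ev a b A (GG row Φ v 𝒯) ≠ 0 := by
  have e2 : ∀ c ∈ l, ev a b A (Φ.poly c) ≠ 0 := by
    intro c hc h0
    apply hv
    rw [poly_mul Φ hl]
    unfold ev at h0 ⊢
    rw [map_multiset_prod, Multiset.map_map]
    apply Multiset.prod_eq_zero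
    rw [Multiset.mem_map]
    exact ⟨c, hc, h0⟩
  unfold GG
  rw [hl]
  unfold ev at e2 ⊢
  rw [map_multiset_prod, Multiset.map_map, Ne, Multiset.prod_eq_zero_iff, Multiset.mem_map]
  rintro ⟨c, hc, h0⟩
  exact e2 c (Multiset.mem_of_le (Multiset.filter_le _ _) hc) h0

open Classical in
/-- the balanced polynomial attached to a gate -/
noncomputable def bal (row : Slot m → Fin n) (Φ : Circuit n K s) (u : Fin s) : MvPolynomial (Fin n × Fin n) K :=
  if 2 * m < 3 * (typ row (Φ.poly u)).card ∧ 3 * (typ row (Φ.poly u)).card ≤ 4 * m then Φ.poly u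
  else if h : ∃ 𝒯, 2 * m < 3 * (typ row (GG row Φ u 𝒯)).card ∧ 3 * (typ row (GG row Φ u 𝒯)).card ≤ 4 * m then
    GG row Φ u h.choose
  else 0

theorem bal_par (row : Slot m → Fin n) (Φ : Circuit n K s) (hΦ : ∀ g, Par row (Φ.poly g)) (u : Fin s) :
    Par row (bal row Φ u) := by
  unfold bal
  split_ifs
  · exact hΦ u
  · exact par_GG row Φ hΦ u _
  · intro x; left; simp

open Classical in
theorem exists_bal (a b : Fin m → Fin n) (row : Slot m → Fin n) (hrow : Function.Injective row)
    (Φ : Circuit n K s) (hΦ : ∀ g, Par row (Φ.poly g)) (A : Equiv.Perm (Fin n)) (hm : 0 < m) (o : Fin s)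
    (ho : ev a b A (Φ.poly o) ≠ 0) (ht : typ row (Φ.poly o) = univ) :
    ∃ u, ev a b A (bal row Φ u) ≠ 0 ∧ 2 * m < 3 * (typ row (bal row Φ u)).card ∧
      3 * (typ row (bal row Φ u)).card ≤ 4 * m := by
  have hc : Fintype.card (Slot m) = 2 * m := by simp [mul_comm]
  obtain ⟨v, hv | hv⟩ := walk a b row hrow Φ hΦ A hm o ho (by rw [ht, card_univ, hc]; omega)
  · refine ⟨v, ?_⟩
    unfold bal
    rw [if_pos ⟨hv.2.1, hv.2.2⟩]
    exact hv
  · obtain ⟨h1, ⟨l, hl⟩, h3, h4⟩ := hv
    have h5 : ∃ 𝒯, 2 * m < 3 * (typ row (GG row Φ v 𝒯)).card ∧ 3 * (typ row (GG row Φ v 𝒯)).card ≤ 4 * m := by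
      apply greedy row Φ v h4 univ
      rw [GG_univ row Φ v l hl]
      omega
    refine ⟨v, ?_⟩
    unfold bal
    rw [if_neg (by omega), dif_pos h5]
    exact ⟨ev_GG a b row Φ A v l hl h1 _, h5.choose_spec⟩

/-- the polynomials attached to the gates are permuted by the automorphisms -/
theorem bal_act (row : Slot m → Fin n) (Φ : Circuit n K s) (u : Fin s) :
    ∃ Ψ : Fin s → MvPolynomial (Fin n × Fin n) K, ∀ (e : Equiv.Perm (Fin n)) (π : Equiv.Perm (Fin s)),
      (∀ g, Φ.label (π g) = (Φ.label g).act e π) → rename (ren e) (bal row Φ u) = Ψ (π u) := by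
  classical
  unfold bal
  split_ifs with h1 h2
  · exact ⟨Φ.poly, fun e π h => (poly_act Φ e π h u).symm⟩
  · exact ⟨fun v => GG row Φ v h2.choose, fun e π h => (GG_act row Φ e π h u _).symm⟩
  · exact ⟨fun _ => 0, fun e π _ => map_zero _⟩

/-- all sign vectors act by automorphisms -/
theorem exists_aut (a b : Fin m → Fin n) (hcol : Function.Injective (col a b)) (Φ : Circuit n K s)
    (hsym : ∀ p, Φ.Extends (Equiv.swap (a p) (b p))) (q : Sg m) :
    ∃ (e : Equiv.Perm (Fin n)) (π : Equiv.Perm (Fin s)), Acts a b q e ∧
      ∀ g, Φ.label (π g) = (Φ.label g).act e π := by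
  classical
  have hab : ∀ p p', a p ≠ b p' := by
    intro p p' h'
    have := @hcol (p, false) (p', true) (by simp [col, h'])
    simp at this
  have haa : ∀ p p', a p = a p' → p = p' := by
    intro p p' h'
    have := @hcol (p, false) (p', false) (by simp [col, h'])
    simpa using this
  have hbb : ∀ p p', b p = b p' → p = p' := by
    intro p p' h'
    have := @hcol (p, true) (p', true) (by simp [col, h'])
    simpa using this
  have main : ∀ Z : Finset (Fin m), ∃ (e : Equiv.Perm (Fin n)) (π : Equiv.Perm (Fin s)),
      Acts a b (fun p => if p ∈ Z then -1 else 1) e ∧ ∀ g, Φ.label (π g) = (Φ.label g).act e π := by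
    intro Z
    induction Z using Finset.induction_on with
    | empty =>
      refine ⟨1, 1, ⟨?_, ?_, ?_⟩, ?_⟩
      · intro p hp
        simp at hp
      · intro p _
        exact ⟨rfl, rfl⟩
      · intro j _
        rfl
      · intro g
        cases h : Φ.label g <;> simp [Label.act, h]
    | insert p Z hp ih =>
      obtain ⟨e, π, ⟨he1, he2, he3⟩, hπ⟩ := ih
      obtain ⟨π', hπ'⟩ := hsym p
      refine ⟨Equiv.swap (a p) (b p) * e, π' * π, ⟨?_, ?_, ?_⟩, ?_⟩
      · intro r hr
        by_cases hrp : r = p
        · subst hrp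
          have := he2 r (by simp [hp])
          rw [Equiv.Perm.mul_apply, Equiv.Perm.mul_apply, this.1, this.2]
          simp
        · have hrZ : r ∈ Z := by
            by_contra hc
            simp [hrp, hc] at hr
          have := he1 r (by simp [hrZ])
          rw [Equiv.Perm.mul_apply, Equiv.Perm.mul_apply, this.1, this.2]
          constructor
          · exact Equiv.swap_apply_of_ne_of_ne (hab p r).symm (fun h => hrp (hbb _ _ h))
          · exact Equiv.swap_apply_of_ne_of_ne (fun h => hrp (haa _ _ h)) (hab r p)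
      · intro r hr
        have hrp : r ≠ p := by
          rintro rfl
          simp at hr
        have hrZ : r ∉ Z := by
          intro hc
          simp [hc] at hr
        have := he2 r (by simp [hrZ])
        rw [Equiv.Perm.mul_apply, Equiv.Perm.mul_apply, this.1, this.2]
        constructor
        · exact Equiv.swap_apply_of_ne_of_ne (fun h => hrp (haa _ _ h)) (hab r p)
        · exact Equiv.swap_apply_of_ne_of_ne (hab p r).symm (fun h => hrp (hbb _ _ h))
      · intro j hj
        rw [Equiv.Perm.mul_apply, he3 j hj]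
        exact Equiv.swap_apply_of_ne_of_ne (hj p).1 (hj p).2
      · intro g
        rw [Equiv.Perm.mul_apply, hπ', hπ]
        cases h : Φ.label g <;> simp [Label.act, Multiset.map_map]
  obtain ⟨e, π, he, hπ⟩ := main (univ.filter fun p => q p = -1)
  refine ⟨e, π, ?_, hπ⟩
  have : (fun p => if p ∈ univ.filter (fun p => q p = -1) then (-1 : ℤˣ) else 1) = q := by
    funext p
    rcases Int.units_eq_one_or (q p) with h | h
    · rw [h]; simp [h]
    · rw [h]; simp [h]
  rwa [this] at he

end

section
variable {n m s : ℕ} {K : Type u} [Field K] [CharZero K]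

theorem rowNeg_perm (i : Fin n) :
    rowNeg i (Matrix.permanent (Matrix.of fun i j => (X (i, j) : MvPolynomial (Fin n × Fin n) K))) =
      - Matrix.permanent (Matrix.of fun i j => (X (i, j) : MvPolynomial (Fin n × Fin n) K)) := by
  classical
  rw [Matrix.permanent]
  simp only [Matrix.of_apply]
  rw [map_sum, ← Finset.sum_neg_distrib]
  refine Finset.sum_congr rfl fun σ _ => ?_
  rw [map_prod]
  unfold rowNeg
  simp only [aeval_X]
  have h1 : ∀ k, (if σ k = i then - X (σ k, k) else X (σ k, k) : MvPolynomial (Fin n × Fin n) K) =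
      (if k = σ⁻¹ i then -1 else 1) * X (σ k, k) := by
    intro k
    by_cases h : σ k = i
    · have : k = σ⁻¹ i := by rw [← h]; simp
      rw [if_pos h, if_pos this]; ring
    · have : k ≠ σ⁻¹ i := by
        intro h2
        apply h
        rw [h2]; simp
      rw [if_neg h, if_neg this, one_mul]
  rw [Finset.prod_congr rfl fun k _ => h1 k, Finset.prod_mul_distrib, Finset.prod_ite_eq']
  simp

theorem exists_A (a b : Fin m → Fin n) (hcol : Function.Injective (col a b)) (row : Slot m → Fin n)
    (hrow : Function.Injective row) (ρ : Equiv.Perm (Slot m)) :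
    ∃ A : Equiv.Perm (Fin n), ∀ x, A (row x) = col a b (ρ x) := by
  classical
  have hinj : Function.Injective (fun x => col a b (ρ x)) := hcol.comp ρ.injective
  let e1 := Equiv.ofInjective row hrow
  let e2 := Equiv.ofInjective (fun x => col a b (ρ x)) hinj
  let e : {i // i ∈ Set.range row} ≃ {j // j ∈ Set.range fun x => col a b (ρ x)} := e1.symm.trans e2
  refine ⟨e.extendSubtype, fun x => ?_⟩
  rw [e.extendSubtype_apply_of_mem (row x) ⟨x, rfl⟩]
  have h1 : e1.symm ⟨row x, ⟨x, rfl⟩⟩ = x := by
    rw [Equiv.symm_apply_eq]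
    rfl
  show ((e2 (e1.symm ⟨row x, ⟨x, rfl⟩⟩) : {j // j ∈ Set.range fun x => col a b (ρ x)}) : Fin n) = _
  rw [h1]
  rfl

open Classical in
theorem count_one (a b : Fin m → Fin n) (hcol : Function.Injective (col a b)) (row : Slot m → Fin n)
    (hrow : Function.Injective row) (Φ : Circuit n K s) (hΦ : ∀ g, Par row (Φ.poly g))
    (hsym : ∀ p, Φ.Extends (Equiv.swap (a p) (b p)))
    (A : Equiv.Perm (Slot m) → Equiv.Perm (Fin n)) (hA : ∀ ρ x, A ρ (row x) = col a b (ρ x)) (u : Fin s) :
    (univ.filter (fun ρ => ev a b (A ρ) (bal row Φ u) ≠ 0)).card *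
      (2 * m).choose (typ row (bal row Φ u)).card ≤ s * 2 ^ m * (2 * m).factorial := by
  choose e π he hπ using exists_aut a b hcol Φ hsym
  obtain ⟨Ψ, hΨ⟩ := bal_act row Φ u
  set P := bal row Φ u with hP
  set S := typ row P with hS
  set R := univ.filter (fun ρ => ev a b (A ρ) P ≠ 0) with hR
  let f : Equiv.Perm (Slot m) → (Sg m →* K) := fun ρ => chi K (S.map ρ.toEmbedding)
  have h1 : (R.image f).card ≤ s := by
    apply chars_le (fun q => π q u)
    intro χ hχ
    rw [mem_image] at hχ
    obtain ⟨ρ, hρ, rfl⟩ := hχ
    rw [hR, mem_filter] at hρ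
    refine ⟨fun v => ev a b (A ρ) (Ψ v) / ev a b (A ρ) P, fun q => ?_⟩
    have h2 := ev_rename a b hcol q (e q) (he q) row hrow (A ρ) ρ (hA ρ) P (bal_par row Φ hΦ u)
    have h3 := hΨ (e q) (π q) (hπ q)
    rw [eq_div_iff hρ.2, ← h3]
    exact h2.symm
  have h2 : R.card ≤ ∑ χ ∈ R.image f, ∑ T ∈ univ.filter (fun T : Finset (Slot m) => chi K T = χ),
      (univ.filter (fun ρ : Equiv.Perm (Slot m) => S.map ρ.toEmbedding = T)).card := by
    rw [Finset.card_eq_sum_card_image f R]
    refine Finset.sum_le_sum fun χ _ => ?_
    rw [Finset.card_eq_sum_card_fiberwise (f := fun ρ : Equiv.Perm (Slot m) => S.map ρ.toEmbedding)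
      (t := univ.filter (fun T : Finset (Slot m) => chi K T = χ))]
    · refine Finset.sum_le_sum fun T _ => Finset.card_le_card ?_
      intro ρ hρ
      rw [mem_filter] at hρ ⊢
      exact ⟨mem_univ _, hρ.2⟩
    · intro ρ hρ
      rw [mem_coe, mem_filter] at hρ ⊢
      exact ⟨mem_univ _, hρ.2⟩
  calc R.card * (2 * m).choose S.card
      ≤ (∑ χ ∈ R.image f, ∑ T ∈ univ.filter (fun T : Finset (Slot m) => chi K T = χ),
          (univ.filter (fun ρ : Equiv.Perm (Slot m) => S.map ρ.toEmbedding = T)).card) *
            (2 * m).choose S.card := Nat.mul_le_mul_right _ h2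
    _ = ∑ χ ∈ R.image f, ∑ T ∈ univ.filter (fun T : Finset (Slot m) => chi K T = χ),
          (univ.filter (fun ρ : Equiv.Perm (Slot m) => S.map ρ.toEmbedding = T)).card *
            (2 * m).choose S.card := by
        rw [Finset.sum_mul]
        exact Finset.sum_congr rfl fun χ _ => Finset.sum_mul _ _ _
    _ ≤ ∑ χ ∈ R.image f, ∑ T ∈ univ.filter (fun T : Finset (Slot m) => chi K T = χ), (2 * m).factorial :=
        Finset.sum_le_sum fun χ _ => Finset.sum_le_sum fun T _ => perm_count S T
    _ = ∑ χ ∈ R.image f, (univ.filter (fun T : Finset (Slot m) => chi K T = χ)).card * (2 * m).factorial := by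
        exact Finset.sum_congr rfl fun χ _ => by rw [Finset.sum_const, smul_eq_mul]
    _ ≤ ∑ χ ∈ R.image f, 2 ^ m * (2 * m).factorial :=
        Finset.sum_le_sum fun χ _ => Nat.mul_le_mul_right _ (fibre_le χ)
    _ = (R.image f).card * (2 ^ m * (2 * m).factorial) := by rw [Finset.sum_const, smul_eq_mul]
    _ ≤ s * (2 ^ m * (2 * m).factorial) := Nat.mul_le_mul_right _ h1
    _ = s * 2 ^ m * (2 * m).factorial := by ring

end

/-- **Theorem.** Let `K` be a field of characteristic zero and let `Φ` be an arithmetic circuit with `s`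
gates (sums and products of unbounded fan-in, arbitrary constants) that computes the generic permanent
`per_n`. Suppose that, for `2m` rows, the polynomial computed at each gate is even or odd in the variables
of each of these rows (for instance, that the circuit is set-multilinear in the rows), and that each of
`m` disjoint transpositions of columns extends to an automorphism of the circuit. Then
`s ^ 2 ≥ (3/2)^m / 2`. -/
theorem main {K : Type u} [Field K] [CharZero K] (n m s : ℕ) (Φ : Circuit n K s)
    (hper : ∃ o, Φ.poly o =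
      Matrix.permanent (Matrix.of fun i j => (X (i, j) : MvPolynomial (Fin n × Fin n) K)))
    (R : Finset (Fin n)) (hR : 2 * m ≤ R.card)
    (hrow : ∀ g, ∀ i ∈ R, rowNeg i (Φ.poly g) = Φ.poly g ∨ rowNeg i (Φ.poly g) = - Φ.poly g)
    (a b : Fin m → Fin n) (ha : Function.Injective a) (hb : Function.Injective b)
    (hab : ∀ p q, a p ≠ b q) (hsym : ∀ p, Φ.Extends (Equiv.swap (a p) (b p))) :
    3 ^ m ≤ 2 ^ (m + 1) * s ^ 2 := by
  classical
  obtain ⟨o, ho⟩ := hper
  have hs : 0 < s := lt_of_le_of_lt (Nat.zero_le _) o.2
  rcases Nat.eq_zero_or_pos m with hm | hm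
  · subst hm
    have := pow_pos hs 2
    simpa using (by omega : 1 ≤ 2 * s ^ 2)
  have hcol : Function.Injective (col a b) := by
    rintro ⟨p, t⟩ ⟨p', t'⟩ h
    cases t <;> cases t' <;> simp only [col] at h
    · have h1 : a p = a p' := by simpa using h
      rw [ha h1]
    · exact absurd (by simpa using h) (hab p p')
    · exact absurd (by simpa using h.symm) (hab p' p)
    · have h1 : b p = b p' := by simpa using h
      rw [hb h1]
  obtain ⟨R', hR', hR'2⟩ := Finset.exists_subset_card_eq hR
  have hc : Fintype.card (Slot m) = 2 * m := by simp [mul_comm]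
  let eR : Slot m ≃ {i // i ∈ R'} := Fintype.equivOfCardEq (by rw [hc, Fintype.card_coe, hR'2])
  let row : Slot m → Fin n := fun x => (eR x : Fin n)
  have hrow' : Function.Injective row := fun x y h => eR.injective (Subtype.ext h)
  have hΦ : ∀ g, Par row (Φ.poly g) := fun g x => hrow g (row x) (hR' (eR x).2)
  choose A hA using exists_A a b hcol row hrow'
  have hall : ∀ ρ : Equiv.Perm (Slot m), ∃ u, ev a b (A ρ) (bal row Φ u) ≠ 0 ∧
      2 * m < 3 * (typ row (bal row Φ u)).card ∧ 3 * (typ row (bal row Φ u)).card ≤ 4 * m := by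
    intro ρ
    apply exists_bal a b row hrow' Φ hΦ (A ρ) hm o
    · rw [ho]
      exact perm_ne a b (A ρ)
    · unfold typ
      rw [Finset.filter_true_of_mem]
      intro x _
      rw [ho, rowNeg_perm]
      intro h
      have h1 := perm_ne (K := K) a b (A ρ)
      have h2 : (2 : K) * ev a b (A ρ) (Matrix.permanent (Matrix.of fun i j => (X (i, j) : MvPolynomial (Fin n × Fin n) K))) = 0 := by
        have := congrArg (ev a b (A ρ)) h
        unfold ev at this ⊢
        rw [map_neg] at this
        linear_combination - this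
      rcases mul_eq_zero.1 h2 with h3 | h3
      · norm_num at h3
      · exact h1 h3
  choose w hw using hall
  have h1 : (2 * m).factorial = ∑ u : Fin s, (univ.filter (fun ρ => w ρ = u)).card := by
    rw [← Finset.card_eq_sum_card_fiberwise (f := w) (fun ρ _ => mem_coe.2 (mem_univ _)), card_univ,
      Fintype.card_perm, hc]
  have h2 : ∀ u : Fin s, 3 ^ m * (univ.filter (fun ρ => w ρ = u)).card ≤ 2 * (s * 2 ^ m * (2 * m).factorial) := by
    intro u
    rcases Finset.eq_empty_or_nonempty (univ.filter (fun ρ => w ρ = u)) with h | ⟨ρ₀, hρ₀⟩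
    · rw [h]; simp
    · have h3 := (mem_filter.1 hρ₀).2
      have h4 := hw ρ₀
      rw [h3] at h4
      have h5 := choose_bound m _ h4.2.1 h4.2.2
      have h6 := count_one a b hcol row hrow' Φ hΦ hsym A hA u
      have h7 : (univ.filter (fun ρ => w ρ = u)).card ≤ (univ.filter (fun ρ => ev a b (A ρ) (bal row Φ u) ≠ 0)).card := by
        apply Finset.card_le_card
        intro ρ hρ
        rw [mem_filter] at hρ ⊢
        refine ⟨mem_univ _, ?_⟩
        have := (hw ρ).1
        rwa [hρ.2] at this
      calc 3 ^ m * (univ.filter (fun ρ => w ρ = u)).card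
          ≤ (2 * (2 * m).choose (typ row (bal row Φ u)).card) *
              (univ.filter (fun ρ => ev a b (A ρ) (bal row Φ u) ≠ 0)).card := Nat.mul_le_mul h5 h7
        _ = 2 * ((univ.filter (fun ρ => ev a b (A ρ) (bal row Φ u) ≠ 0)).card *
              (2 * m).choose (typ row (bal row Φ u)).card) := by ring
        _ ≤ _ := Nat.mul_le_mul_left _ h6
  have h3 : 3 ^ m * (2 * m).factorial ≤ (2 ^ (m + 1) * s ^ 2) * (2 * m).factorial := by
    calc 3 ^ m * (2 * m).factorial = ∑ u : Fin s, 3 ^ m * (univ.filter (fun ρ => w ρ = u)).card := by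
          rw [← Finset.mul_sum, ← h1]
      _ ≤ ∑ _u : Fin s, 2 * (s * 2 ^ m * (2 * m).factorial) := Finset.sum_le_sum fun u _ => h2 u
      _ = (2 ^ (m + 1) * s ^ 2) * (2 * m).factorial := by
          rw [Finset.sum_const, card_univ, Fintype.card_fin, smul_eq_mul]
          ring
  exact Nat.le_of_mul_le_mul_right h3 (Nat.factorial_pos _)

end Pool.Agent.V7H15.Perm
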