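import Mathlib
import Pool.Agent.V7H15.Perm.SymMain

set_option autoImplicit false

/-!
# Symmetric row-homogeneous circuits for the permanent are exponentially large

The proof. The circuit is evaluated at the matrices obtained from the block diagonal matrix with `m`
blocks with the two equal rows `(1, -1)`, `(1, -1)` (and an identity matrix) by a permutation of the
rows. The permanent of such a matrix is not zero. Walking down from the output one finds a gate (or a
product of some of the inputs of a gate) which is odd in about between one third and two thirds of the
`2m` rows and does not vanish. A transposition of the two columns of a block changes the signs of two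
rows, so the values of the images of such a gate under the `2 ^ m` products of the transpositions form
a character of the group of sign vectors, determined by the blocks with exactly one odd row. Characters
are linearly independent, so each gate admits at most `s` of them, and a random permutation of the rows
leads to one of them with probability at most `s * 2 ^ m / C(2m, k)`, `2m/3 < k ≤ 4m/3`.
-/

namespace Pool.Agent.V7H15.Perm.SymmetricColumnsMoved

open MvPolynomial Pool.Agent.V7H15.Perm

universe u

/-- **Theorem.** Let `K` be a field of characteristic zero and let `Φ` be an arithmetic circuit with `s`
gates (sums and products of unbounded fan-in, arbitrary constants) that computes the generic permanent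
`per_n`. Suppose that, for `2m` rows, the polynomial computed at each gate is even or odd in the variables
of each of these rows (for instance, that the circuit is set-multilinear in the rows), and that each of
`m` disjoint transpositions of columns extends to an automorphism of the circuit. Then
`s ^ 2 ≥ (3/2)^m / 2`. -/
theorem result {K : Type u} [Field K] [CharZero K] (n m s : ℕ) (Φ : Circuit n K s)
    (hper : ∃ o, Φ.poly o =
      Matrix.permanent (Matrix.of fun i j => (X (i, j) : MvPolynomial (Fin n × Fin n) K)))
    (R : Finset (Fin n)) (hR : 2 * m ≤ R.card)
    (hrow : ∀ g, ∀ i ∈ R, rowNeg i (Φ.poly g) = Φ.poly g ∨ rowNeg i (Φ.poly g) = - Φ.poly g)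
    (a b : Fin m → Fin n) (ha : Function.Injective a) (hb : Function.Injective b)
    (hab : ∀ p q, a p ≠ b q) (hsym : ∀ p, Φ.Extends (Equiv.swap (a p) (b p))) :
    3 ^ m ≤ 2 ^ (m + 1) * s ^ 2 := 
  main n m s Φ hper R hR hrow a b ha hb hab hsym

end Pool.Agent.V7H15.Perm.SymmetricColumnsMoved
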